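import Pool.Agent.X72.SteffenRing.Defs

set_option autoImplicit false

namespace Pool.Agent.Results.MP_7ce1ef_co.RingSubgraphs

open Pool.Agent.Results.MP_633d19_co.SmallDegree
open Pool.Agent.Results.MP_633d19_co.SmallDegree.MGraph
open Pool.Agent.X72.SteffenRing

lemma fat_mult_self {n μ : ℕ} (hn : 3 ≤ n) : (fat n hn (fun _ => μ)).mult 0 1 = μ := by
  have : NeZero n := ⟨by omega⟩
  apply le_antisymm (fat_mult_le hn _ (fun _ => le_rfl) 0 1)
  unfold mult
  have hinj : Function.Injective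
      (fun a : Fin μ => (⟨⟨(0 : ZMod n), a⟩, by
        show s((0 : ZMod n), 0 + 1) = s(0, 1)
        rw [zero_add]⟩ :
        {e : (i : ZMod n) × Fin ((fun _ => μ) i) // (fat n hn (fun _ => μ)).ends e = s(0, 1)})) := by
    intro a b h
    have h1 := congrArg Subtype.val h
    simpa using h1
  have := Nat.card_le_card_of_injective _ hinj
  simpa using this

/-- a ring of order `l` in a disjoint union lies in one of the two parts -/
lemma sum_ring_side {V₁ E₁ V₂ E₂ : Type} (G₁ : MGraph V₁ E₁) (G₂ : MGraph V₂ E₂) {l : ℕ}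
    (hl : 3 ≤ l) {v : ℕ → V₁ ⊕ V₂} (h1 : ∀ i < l, ∀ j < l, v i = v j → i = j)
    (h2 : ∀ i < l, ∃ e, (G₁.sum G₂).ends e = s(v i, v ((i + 1) % l))) :
    G₁.HasCycle l ∨ ∀ i < l, ∃ u, v i = Sum.inr u := by
  rcases h0 : v 0 with u0 | u0
  · left
    have hall : ∀ i < l, ∃ u, v i = Sum.inl u := by
      intro i
      induction i with
      | zero => exact fun _ => ⟨u0, h0⟩
      | succ i ih =>
        intro hi
        obtain ⟨u, hu⟩ := ih (by omega)
        obtain ⟨e, he⟩ := h2 i (by omega)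
        rw [Nat.mod_eq_of_lt hi] at he
        rcases hw : v (i + 1) with w | w
        · exact ⟨w, rfl⟩
        · exfalso
          exact sum_no_mixed G₁ G₂ u w e ⟨by rw [he, hu]; simp, by rw [he, hw]; simp⟩
    have hall' : ∀ i, ∃ u, i < l → v i = Sum.inl u := by
      intro i
      by_cases hi : i < l
      · obtain ⟨u, hu⟩ := hall i hi
        exact ⟨u, fun _ => hu⟩
      · exact ⟨u0, fun h => absurd h hi⟩
    choose w hw using hall'
    refine ⟨w, fun i hi j hj hij => h1 i hi j hj (by rw [hw i hi, hw j hj, hij]), ?_⟩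
    intro i hi
    obtain ⟨e, he⟩ := h2 i hi
    rw [hw i hi, hw _ (Nat.mod_lt _ (by omega))] at he
    rcases e with e | e
    · exact ⟨e, (sum_ends_inl G₁ G₂ _ _ e).mp he⟩
    · exfalso
      exact mem_sum_lr G₁ G₂ (w i) e (by rw [he]; simp)
  · right
    intro i
    induction i with
    | zero => exact fun _ => ⟨u0, h0⟩
    | succ i ih =>
      intro hi
      obtain ⟨u, hu⟩ := ih (by omega)
      obtain ⟨e, he⟩ := h2 i (by omega)
      rw [Nat.mod_eq_of_lt hi] at he
      rcases hw : v (i + 1) with w | w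
      · exfalso
        exact sum_no_mixed G₁ G₂ w u e ⟨by rw [he, hw]; simp, by rw [he, hu]; simp⟩
      · exact ⟨w, rfl⟩

/-- The disjoint union of `μ C_{g+2}` and `C_g`. -/
lemma union_example {g μ t : ℕ} (hg : 5 ≤ g) (hodd : g % 2 = 1) (ht : 1 ≤ t)
    (hμ1 : μ ≤ (g / 2 + 1) * t) (hμ2 : (g / 2 + 1) * (t - 1) < μ) (hμ3 : 2 ≤ μ) :
    ∃ (V E : Type) (_ : Finite V) (_ : Finite E) (G : MGraph V E),
      InClass G (2 * μ) μ g ∧ G.HasChromaticIndex (2 * μ + t) ∧
        ¬ ContainsRing G g (2 * μ + t) := by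
  classical
  obtain ⟨p, hp⟩ : ∃ p, g = 2 * p + 1 := ⟨g / 2, by omega⟩
  have hgp : g / 2 = p := by omega
  rw [hgp] at hμ1 hμ2
  have hn2 : 3 ≤ g + 2 := by omega
  have hn : 3 ≤ g := by omega
  have : NeZero (g + 2) := ⟨by omega⟩
  have : NeZero g := ⟨by omega⟩
  set A := fat (g + 2) hn2 (fun _ => μ) with hA
  set B := fat g hn (fun _ => 1) with hB
  have hAdeg : ∀ u, A.degree u = 2 * μ := by
    intro u
    rw [hA, fat_degree]
    ring
  have hBdeg : ∀ u, B.degree u = 2 := by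
    intro u
    rw [hB, fat_degree]
  have hAcyc : ∀ l, 3 ≤ l → A.HasCycle l → g + 2 ≤ l := fun l hl hc => fat_cycle hn2 _ hl hc
  have hBcyc : ∀ l, 3 ≤ l → B.HasCycle l → g ≤ l := fun l hl hc => fat_cycle hn _ hl hc
  refine ⟨ZMod (g + 2) ⊕ ZMod g, ((_ : ZMod (g + 2)) × Fin μ) ⊕ ((_ : ZMod g) × Fin 1),
    inferInstance, inferInstance, A.sum B, ⟨⟨?_, ?_⟩, ⟨?_, ?_⟩, ⟨?_, ?_⟩⟩, ⟨?_, ?_⟩, ?_⟩
  · exact sum_degree_le _ _ (fun u => (hAdeg u).le) (fun u => by rw [hBdeg]; omega)
  · exact ⟨Sum.inl 0, by rw [sum_degree_inl, hAdeg]⟩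
  · exact sum_mult_le _ _ (fun u w _ => fat_mult_le hn2 _ (fun _ => le_rfl) u w)
      (fun u w _ => (fat_mult_le hn _ (fun _ => le_rfl) u w).trans (by omega))
  · refine ⟨Sum.inl 0, Sum.inl 1, ?_, ?_⟩
    · intro h
      have h1 := Sum.inl_injective h
      have : Fact (1 < g + 2) := ⟨by omega⟩
      exact one_ne_zero h1.symm
    · rw [sum_mult_inl]
      exact fat_mult_self hn2
  · exact ⟨hn, sum_cycle_inr _ _ (fat_cycle_self hn _ (fun _ => le_rfl))⟩
  · rintro l ⟨hl, hc⟩
    rcases sum_cycle _ _ (by omega) hc with hc | hc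
    · have := hAcyc l hl hc
      omega
    · exact hBcyc l hl hc
  · show (A.sum B).Colorable (2 * μ + t)
    rw [sum_colorable]
    constructor
    · apply goldberg (Δ := 2 * μ) (p := p + 1) (k := 2 * μ + t) (by omega) ?_ _ _ A rfl
        (fun u => (hAdeg u).le)
      · intro l hl _ hc
        have := hAcyc l hl hc
        omega
      · rw [Nat.add_sub_cancel_left]
        have : 2 * (p + 1) * t = 2 * ((p + 1) * t) := by ring
        omega
    · apply goldberg (Δ := 2) (p := 1) (k := 2 * μ + t) (by omega) (by omega) _ _ B rfl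
        (fun u => (hBdeg u).le)
      intro l hl _ _
      omega
  · intro j hj
    have hj' : (A.sum B).Colorable j := hj
    rw [sum_colorable] at hj'
    have h1 := A.overfull (p := p + 1) hj'.1 (by
      rw [Nat.card_eq_fintype_card, ZMod.card]
      omega)
    have h2 : Nat.card ((_ : ZMod (g + 2)) × Fin μ) = (g + 2) * μ := by
      rw [Nat.card_eq_fintype_card, Fintype.card_sigma]
      simp [ZMod.card]
    rw [h2] at h1
    by_contra hcon
    push Not at hcon
    have h3 : j ≤ 2 * μ + (t - 1) := by omega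
    have h4 : j * (p + 1) ≤ (2 * μ + (t - 1)) * (p + 1) := Nat.mul_le_mul_right _ h3
    have h5 : (2 * μ + (t - 1)) * (p + 1) = 2 * (μ * (p + 1)) + (p + 1) * (t - 1) := by ring
    have h6 : (g + 2) * μ = 2 * (μ * (p + 1)) + μ := by rw [hp]; ring
    omega
  · rintro ⟨F, ⟨v, hv1, hv2, hv3⟩, hχ⟩
    have hcy : ∀ i < g, ∃ e, (A.sum B).ends e = s(v i, v ((i + 1) % g)) := by
      intro i hi
      obtain ⟨e, _, he⟩ := hv3 i hi
      exact ⟨e, he⟩
    rcases sum_ring_side A B hn hv1 hcy with h | h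
    · have := hAcyc g hn h
      omega
    · have hFe : ∀ e : F, ∀ u ∈ (restrict (A.sum B) F).ends e, ∃ w, u = Sum.inr w := by
        intro e u hu
        obtain ⟨i, hi, he⟩ := hv2 e.1 e.2
        have hu' : u ∈ (A.sum B).ends e.1 := hu
        rw [he, Sym2.mem_iff] at hu'
        rcases hu' with hu' | hu'
        · obtain ⟨w, hw⟩ := h i hi
          exact ⟨w, by rw [hu', hw]⟩
        · obtain ⟨w, hw⟩ := h _ (Nat.mod_lt (i + 1) (by omega : 0 < g))
          exact ⟨w, by rw [hu', hw]⟩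
      have hdeg : ∀ u, (restrict (A.sum B) F).degree u ≤ 2 := by
        intro u
        rcases u with u | u
        · have : IsEmpty {e : F // (Sum.inl u : ZMod (g + 2) ⊕ ZMod g) ∈
              (restrict (A.sum B) F).ends e} := by
            constructor
            rintro ⟨e, he⟩
            obtain ⟨w, hw⟩ := hFe e _ he
            cases hw
          unfold degree
          rw [Nat.card_of_isEmpty]
          omega
        · have h1 : (restrict (A.sum B) F).degree (Sum.inr u) ≤ (A.sum B).degree (Sum.inr u) := by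
            unfold degree
            apply Nat.card_le_card_of_injective
              (fun x : {e : F // (Sum.inr u : ZMod (g + 2) ⊕ ZMod g) ∈
                  (restrict (A.sum B) F).ends e} =>
                (⟨x.1.1, x.2⟩ : {e // (Sum.inr u : ZMod (g + 2) ⊕ ZMod g) ∈ (A.sum B).ends e}))
            intro x y hxy
            have := congrArg Subtype.val hxy
            exact Subtype.ext (Subtype.ext this)
          rw [sum_degree_inr, hBdeg] at h1
          exact h1
      have hcol : (restrict (A.sum B) F).Colorable 3 := by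
        apply goldberg (Δ := 2) (p := 1) (k := 3) (by omega) (by omega) _ _ _ rfl hdeg
        intro l hl _ _
        omega
      have := hχ.2 hcol
      omega

/-- **Q1 settled for all pairs.**  Let `g ≥ 3` be odd and `μ > ⌊g/2⌋` (in particular this covers
`μ ≥ g`).  A graph with girth `g` and maximum multiplicity `μ` which attains Steffen's bound and
contains no ring graph of order `g` with the same chromatic index exists if and only if `g = 3`
or `⌈μ/⌊g/2⌋⌉ = ⌈μ/(⌊g/2⌋+1)⌉`. -/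
theorem result (g μ : ℕ) (hg : 3 ≤ g) (hodd : g % 2 = 1) (hμ : g / 2 < μ) :
    (∃ (V E : Type) (_ : Finite V) (_ : Finite E) (G : MGraph V E) (Δ : ℕ),
      G.HasGirth g ∧ G.HasMaxMult μ ∧ G.HasMaxDegree Δ ∧
        G.HasChromaticIndex (Δ + ⌈(μ : ℚ) / ((g / 2 : ℕ) : ℚ)⌉₊) ∧
        ¬ ContainsRing G g (Δ + ⌈(μ : ℚ) / ((g / 2 : ℕ) : ℚ)⌉₊)) ↔
    (g = 3 ∨ ⌈(μ : ℚ) / ((g / 2 : ℕ) : ℚ)⌉₊ = ⌈(μ : ℚ) / ((g / 2 + 1 : ℕ) : ℚ)⌉₊) := by
  classical
  obtain ⟨p, hp⟩ : ∃ p, g / 2 = p := ⟨_, rfl⟩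
  have hgp : g = 2 * p + 1 := by omega
  have hp1 : 1 ≤ p := by omega
  have hp0 : (0 : ℚ) < ((p : ℕ) : ℚ) := by exact_mod_cast hp1
  have hp0' : (0 : ℚ) < ((p + 1 : ℕ) : ℚ) := by exact_mod_cast (by omega : 0 < p + 1)
  rw [hp] at hμ ⊢
  obtain ⟨t, ht⟩ : ∃ t, ⌈(μ : ℚ) / ((p : ℕ) : ℚ)⌉₊ = t := ⟨_, rfl⟩
  obtain ⟨s, hs⟩ : ∃ s, ⌈(μ : ℚ) / ((p + 1 : ℕ) : ℚ)⌉₊ = s := ⟨_, rfl⟩
  have ht1 : μ ≤ p * t := by
    have h1 : (μ : ℚ) / ((p : ℕ) : ℚ) ≤ t := by rw [← ht]; exact Nat.le_ceil _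
    rw [div_le_iff₀ hp0] at h1
    have : (μ : ℚ) ≤ ((p * t : ℕ) : ℚ) := by push_cast; linarith
    exact_mod_cast this
  have hs1 : μ ≤ (p + 1) * s := by
    have h1 : (μ : ℚ) / ((p + 1 : ℕ) : ℚ) ≤ s := by rw [← hs]; exact Nat.le_ceil _
    rw [div_le_iff₀ hp0'] at h1
    have : (μ : ℚ) ≤ (((p + 1) * s : ℕ) : ℚ) := by
      have e1 : (((p + 1) * s : ℕ) : ℚ) = (s : ℚ) * ((p + 1 : ℕ) : ℚ) := by push_cast; ring
      rw [e1]
      exact h1
    exact_mod_cast this
  have ht0 : 2 ≤ t := by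
    by_contra h
    have h1 : p * t ≤ p * 1 := Nat.mul_le_mul_left _ (by omega)
    omega
  have hs0 : 1 ≤ s := by
    by_contra h
    have : s = 0 := by omega
    rw [this] at hs1
    omega
  have hs2 : (p + 1) * (s - 1) < μ := by
    have h1 : (((s - 1 : ℕ)) : ℚ) < (μ : ℚ) / ((p + 1 : ℕ) : ℚ) := by
      rw [← Nat.lt_ceil, hs]
      omega
    rw [lt_div_iff₀ hp0'] at h1
    have : (((p + 1) * (s - 1) : ℕ) : ℚ) < (μ : ℚ) := by
      have e1 : (((p + 1) * (s - 1) : ℕ) : ℚ) = ((s - 1 : ℕ) : ℚ) * ((p + 1 : ℕ) : ℚ) := by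
        push_cast; ring
      rw [e1]
      exact h1
    exact_mod_cast this
  rw [ht, hs]
  constructor
  · rintro ⟨V, E, _, _, G, Δ, hgir, hmul, hdeg, hχ, hno⟩
    by_contra hcon
    push Not at hcon
    obtain ⟨h3, hts⟩ := hcon
    have hst : s ≤ t := by
      rw [← hs, ← ht]
      apply Nat.ceil_mono
      apply div_le_div_of_nonneg_left (by positivity) hp0
      push_cast
      linarith
    obtain ⟨T, rfl⟩ : ∃ T, t = T + 1 := ⟨t - 1, by omega⟩
    have hμT : μ ≤ (p + 1) * T := hs1.trans (Nat.mul_le_mul_left _ (by omega))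
    apply hno
    exact containsRing_of (Δ := Δ) (T := T) (μ := μ) (g := g) (by omega) hodd (by omega)
      (by rw [hp]; exact hμT) (by rw [hp]; exact ht1) G hdeg.1 hmul.1
      (fun l hl hc => hgir.2 ⟨hl, hc⟩) hχ
  · intro h
    by_cases h3 : g = 3
    · subst h3
      have hp1' : p = 1 := by omega
      subst hp1'
      have htμ : t = μ := by
        rw [← ht]
        simp
      subst htμ
      have e5 : 4 * t + t = 5 * t := by ring
      refine ⟨Fin 5, {p : Fin 5 × Fin 5 // p.1 < p.2} × Fin t, inferInstance, inferInstance,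
        K5 t, 4 * t, K5_girth (by omega), ⟨fun u w _ => K5_mult_le t u w,
          ⟨0, 1, by decide, K5_mult t⟩⟩, ⟨fun v => (K5_degree t v).le, ⟨0, K5_degree t 0⟩⟩, ?_, ?_⟩
      · rw [e5]
        exact K5_chromatic t
      · rw [e5]
        exact K5_noRing (by omega)
    · rcases h with h | h
      · exact absurd h h3
      · subst h
        obtain ⟨V, E, hV, hE, G, hG, h1, h2⟩ := union_example (g := g) (μ := μ) (t := t)
          (by omega) hodd (by omega) (by rw [hp]; exact hs1) (by rw [hp]; exact hs2) (by omega)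
        exact ⟨V, E, hV, hE, G, 2 * μ, hG.2.2, hG.2.1, hG.1, h1, h2⟩

end Pool.Agent.Results.MP_7ce1ef_co.RingSubgraphs
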